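import Pool.Agent.Helper65.BR.PGoals
import Pool.Agent.Helper96.BR.PAR

/-!
# Packet BR-PPAR: the parameters of the parallel machines are admissible
-/

namespace Pool.Agent.Helper14.BR

open Pool.Agent.Helper65.LinSpace Pool.Agent.Helper78.Mpc Pool.Agent.Helper28.Ram Finset
open Pool.Agent.Helper65.RT (qT CT)
open Pool.Agent.Helper65.BR
open Pool.Agent.Helper96.BR (fnN_lt le01_ne bT_le qT_le')

theorem prp_ok (P : Prp) (hE : 0 < P.E) (hG : 0 < P.G) : P.rt.Ok where
  hσ := Nat.succ_pos _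
  ha := Nat.succ_pos _
  hb := Nat.succ_pos _
  hE := hE
  hG := hG
  hq _ _ _ := Nat.mod_lt _ (by positivity)
  hg _ _ _ _ := Nat.mod_lt _ (by positivity)
  ho _ _ := fnN_lt _ _ _ _ _ _
  ht0 _ := by
    calc 1 < 2 ^ 1 := by norm_num
      _ ≤ 2 ^ (P.H + 1) := Nat.pow_le_pow_right (by norm_num) (by omega)
  hroot := Nat.mod_lt _ (by positivity)

theorem lt01_ne {x y : ℕ} (h : lt01 x y ≠ 0) : x < y := by
  unfold lt01 at h
  by_contra h'
  rw [if_neg h'] at h
  exact h rfl

theorem ppar : PPAR_stmt := by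
  intro e x y T p
  generalize hn : Nat.log 2 x = n
  have hH := bT_le n T 1
  have hZ := bT_le n T 2
  have hq := qT_le' n
  have fa : (prp e x y T p).rt.a = bT n T 1 + 1 := by
    change bT (Nat.log 2 x) T 1 + 1 = _
    rw [hn]
  have fb : (prp e x y T p).rt.b = bT n T 1 + 1 := fa
  have fσ : (prp e x y T p).rt.σ = bT n T 2 + 1 := by
    change bT (Nat.log 2 x) T 2 + 1 = _
    rw [hn]
  have fE : (prp e x y T p).rt.E = ifz (oP n T) 1 (dig (n + 2) T 5) := by
    change ifz (oP (Nat.log 2 x) T) 1 (dig (Nat.log 2 x + 2) T 5) = _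
    rw [hn]
  have fG : (prp e x y T p).rt.G = ifz (oP n T) 1 (gP n T) := by
    change ifz (oP (Nat.log 2 x) T) 1 (gP (Nat.log 2 x) T) = _
    rw [hn]
  have fK : (prp e x y T p).rt.K = ifz (oP n T) 0 (dig (n + 2) T 4) := by
    change ifz (oP (Nat.log 2 x) T) 0 (dig (Nat.log 2 x + 2) T 4) = _
    rw [hn]
  have fE' : (prp e x y T p).E = ifz (oP n T) 1 (dig (n + 2) T 5) := fE
  have fG' : (prp e x y T p).G = ifz (oP n T) 1 (gP n T) := fG
  have fK' : (prp e x y T p).K = ifz (oP n T) 0 (dig (n + 2) T 4) := fK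
  have fR' : (prp e x y T p).R = dig (n + 2) T 3 := by
    change dig (Nat.log 2 x + 2) T 3 = _
    rw [hn]
  by_cases ho : oP n T = 0
  · have e1 : ∀ a b : ℕ, ifz (oP n T) a b = a := fun a b => if_pos ho
    rw [e1] at fE fG fK fE' fG' fK'
    have hok : (prp e x y T p).rt.Ok := prp_ok _ (by omega) (by omega)
    refine ⟨?_, hok, fun h => absurd fK' h⟩
    generalize (prp e x y T p).rt = m at *
    refine ⟨?_, ?_, ?_, ?_⟩
    · unfold Pool.Agent.Helper65.RT.Mach.wn Pool.Agent.Helper65.RT.Mach.wv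
      rw [fE, fG, fa, fb]
      omega
    · rw [fK]
      omega
    · rw [fK, fσ]
      omega
    · rw [fK, fσ, fE]
      omega
  · have e1 : ∀ a b : ℕ, ifz (oP n T) a b = b := fun a b => if_neg ho
    rw [e1] at fE fG fK fE' fG' fK'
    unfold oP at ho
    obtain ⟨o0, ho⟩ := Nat.mul_ne_zero_iff.1 ho
    obtain ⟨o1, ho⟩ := Nat.mul_ne_zero_iff.1 ho
    obtain ⟨o2, ho⟩ := Nat.mul_ne_zero_iff.1 ho
    obtain ⟨o3, o4⟩ := Nat.mul_ne_zero_iff.1 ho
    have h0 := lt01_ne o0
    have h1 := le01_ne o1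
    have h2 := le01_ne o2
    have h3 := le01_ne o3
    have h4 := le01_ne o4
    have hok : (prp e x y T p).rt.Ok := prp_ok _ (by omega) (by rw [fG']; exact Nat.succ_pos _)
    refine ⟨?_, hok, fun _ => ?_⟩
    · generalize (prp e x y T p).rt = m at *
      refine ⟨?_, ?_, ?_, ?_⟩
      · unfold Pool.Agent.Helper65.RT.Mach.wn Pool.Agent.Helper65.RT.Mach.wv
        rw [fE, fG, fa, fb]
        exact h1
      · rw [fK, fG]
        exact h2
      · rw [fK, fσ]
        exact h3
      · rw [fK, fσ, fE]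
        exact h4
    · rw [fR', fG', fE']
      unfold gP
      exact Nat.lt_mul_of_div_lt (Nat.lt_succ_self _) h0 |> fun h => by
        simpa [Nat.mul_comm] using h

end Pool.Agent.Helper14.BR
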