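import Pool.Agent.Helper65.BR.Goals

/-!
# Machines with silent steps between the reads
-/

namespace Pool.Agent.Helper14.BR

open Pool.Agent.Helper65.BR Pool.Agent.Helper65.LinSpace Pool.Agent.Helper78.Mpc
open Pool.Agent.Helper28.Ram Finset

theorem ifz_z (x y : ℕ) : ifz 0 x y = x := if_pos rfl

theorem ifz_n {c : ℕ} (h : c ≠ 0) (x y : ℕ) : ifz c x y = y := if_neg h

theorem fnN_lt (e S Λ β B a : ℕ) : fnN e S Λ β B a < 2 ^ (S + 1) := by
  unfold fnN
  by_cases ha : a = 0
  · rw [ha, ifz_z]
    positivity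
  rw [ifz_n ha]
  by_cases hc : S < cntN e S Λ β B a
  · rw [lt01, if_pos hc, ifz_n one_ne_zero]
    positivity
  · rw [lt01, if_neg hc, ifz_z]
    have h1 : tab 2 (cntN e S Λ β B a)
        (fun i => univ (Nat.unpair e).2 Λ β (queryN B i a)) < 2 ^ cntN e S Λ β B a :=
      tab_lt fun i _ => univ_lt _ _ _ _
    have h2 : 2 ^ cntN e S Λ β B a ≤ 2 ^ S := Nat.pow_le_pow_right (by norm_num) (by omega)
    rw [pow_succ]
    omega

theorem capN_of_lt {S v : ℕ} (h : v < 2 ^ (S + 1)) : capN S v = v := by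
  unfold capN
  have h1 : ¬ S < Nat.log 2 v := by
    intro h2
    rcases Nat.eq_zero_or_pos v with h3 | h3
    · rw [h3, Nat.log_zero_right] at h2
      omega
    · have h4 : 2 ^ Nat.log 2 v ≤ v := Nat.pow_log_le_self 2 (by omega)
      have h5 : 2 ^ (S + 1) ≤ 2 ^ Nat.log 2 v := Nat.pow_le_pow_right (by norm_num) h2
      omega
  rw [lt01, if_neg h1, ifz_z]

variable (P : Prm)

theorem nxN_lt (q v : ℕ) : P.nxN q v < 2 ^ (P.S + 1) := by
  unfold Prm.nxN
  by_cases h1 : accN q = 0
  · rw [h1, ifz_z]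
    by_cases h2 : P.adN q = 0
    · rw [h2, ifz_z]
      positivity
    rw [ifz_n h2]
    by_cases h3 : P.blN q = 0
    · rw [h3, ifz_z]
      positivity
    rw [ifz_n h3]
    exact fnN_lt _ _ _ _ _ _
  · rw [ifz_n h1]
    exact capN_lt _ _

theorem run_lt (j : ℕ) : (P.run j).1 < 2 ^ (P.S + 1) := by
  cases j with
  | zero => exact fnN_lt _ _ _ _ _ _
  | succ j => exact nxN_lt _ _ _

theorem cont_lt (j x : ℕ) : (P.run j).2 x < 2 ^ (P.H + 1) := by
  induction j with
  | zero => exact Nat.one_lt_two_pow (by omega)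
  | succ j ih =>
    show ifz (accN (P.run j).1) _ _ < _
    by_cases h : accN (P.run j).1 = 0
    · rw [h, ifz_z]
      exact fnN_lt _ _ _ _ _ _
    · rw [ifz_n h]
      exact ih

theorem nx_rdg {q : ℕ} (h : P.rdg q = 0) (v : ℕ) : P.nxN q v = P.nxN q 1 := by
  unfold Prm.nxN
  rw [h, ifz_z, ifz_z]

theorem stop_zero {q : ℕ} (h : P.stop q = 0) : accN q = 0 ∧ P.rdg q = 0 := by
  unfold Prm.stop at h
  omega

/-- The configuration after `i` silent steps. -/
def slc (c : ℕ × (ℕ → ℕ)) (i : ℕ) : ℕ × (ℕ → ℕ) := (P.sil c.1 i, fun x => P.wil c.1 x (c.2 x) i)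

theorem sil_succ (q i : ℕ) :
    P.sil q (i + 1) = ifz (P.stop (P.sil q i)) (P.nxN (P.sil q i) 1) (P.sil q i) := rfl

theorem wil_succ (q x c i : ℕ) : P.wil q x c (i + 1) =
    ifz (P.stop (P.sil q i)) (P.wrN (P.sil q (i + 1)) x (P.wil q x c i)) (P.wil q x c i) := rfl

theorem slc_run (j i : ℕ) : ∃ j' ≤ i, slc P (P.run j) i = P.run (j + j') ∧
    (∀ i' < j', P.stop (P.run (j + i')).1 = 0) ∧ (j' = i ∨ P.stop (P.run (j + j')).1 ≠ 0) := by
  induction i with
  | zero => exact ⟨0, le_rfl, rfl, fun _ h => absurd h (by omega), Or.inl rfl⟩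
  | succ i ih =>
    obtain ⟨j', h1, h2, h3, h4⟩ := ih
    have hq : P.sil (P.run j).1 i = (P.run (j + j')).1 := congrArg Prod.fst h2
    have hM : ∀ x, P.wil (P.run j).1 x ((P.run j).2 x) i = (P.run (j + j')).2 x :=
      fun x => congrFun (congrArg Prod.snd h2) x
    by_cases hs : P.stop (P.run (j + j')).1 = 0
    · have h5 : j' = i := h4.resolve_right (fun h => h hs)
      refine ⟨j' + 1, by omega, ?_, ?_, Or.inl (by omega)⟩
      · obtain ⟨ha, hr⟩ := stop_zero P hs
        have e1 : P.sil (P.run j).1 (i + 1) = (P.run (j + (j' + 1))).1 := by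
          rw [sil_succ, hq, hs, ifz_z]
          exact (nx_rdg P hr _).symm
        refine Prod.ext e1 (funext fun x => ?_)
        show P.wil (P.run j).1 x ((P.run j).2 x) (i + 1) = (P.run (j + (j' + 1))).2 x
        rw [wil_succ, hq, hs, ifz_z, e1, hM]
        show _ = ifz (accN (P.run (j + j')).1) _ _
        rw [ha, ifz_z]
        rfl
      · intro i' hi'
        rcases Nat.lt_succ_iff_lt_or_eq.1 hi' with h | h
        · exact h3 i' h
        · rw [h]
          exact hs
    · refine ⟨j', by omega, ?_, h3, Or.inr hs⟩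
      refine Prod.ext ?_ (funext fun x => ?_)
      · show P.sil (P.run j).1 (i + 1) = _
        rw [sil_succ, hq, ifz_n hs]
      · show P.wil (P.run j).1 x ((P.run j).2 x) (i + 1) = _
        rw [wil_succ, hq, ifz_n hs, hM]

theorem conf_zero : P.mach.conf 0 = slc P (P.run 0) P.T := rfl

theorem capN_slc (j x : ℕ) : capN P.H ((slc P (P.run j) P.T).2 x) = (slc P (P.run j) P.T).2 x := by
  obtain ⟨j', -, h2, -, -⟩ := slc_run P j P.T
  rw [h2]
  exact capN_of_lt (cont_lt P _ _)

theorem conf_succ {k j : ℕ} (h : P.mach.conf k = P.run j) :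
    P.mach.conf (k + 1) = slc P (P.run (j + 1)) P.T := by
  have e : P.mach.conf (k + 1) = (P.mach.N (P.mach.conf k).1
      ((P.mach.conf k).2 (P.mach.A (P.mach.conf k).1)), fun x =>
      P.mach.W (P.mach.conf k).1 ((P.mach.conf k).2 (P.mach.A (P.mach.conf k).1)) x
        ((P.mach.conf k).2 x)) := rfl
  rw [e, h]
  refine Prod.ext rfl (funext fun x => ?_)
  exact capN_slc P (j + 1) x

/-- The states before a stopping state are different. -/
theorem pig {j d : ℕ} (h0 : ∀ i < d, P.stop (P.run (j + i)).1 = 0)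
    (h1 : P.stop (P.run (j + d)).1 ≠ 0) : d ≤ P.T := by
  have hstep : ∀ i < d, (P.run (j + i + 1)).1 = P.nxN (P.run (j + i)).1 1 := fun i hi =>
    nx_rdg P (stop_zero P (h0 i hi)).2 _
  have hinj : ∀ a b, a < b → b < d → (P.run (j + a)).1 ≠ (P.run (j + b)).1 := by
    intro a b hab hb he
    have key : ∀ i, b + i ≤ d → (P.run (j + a + i)).1 = (P.run (j + b + i)).1 := by
      intro i
      induction i with
      | zero => intro _; exact he
      | succ i ih =>
        intro hi
        have h2 := ih (by omega)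
        have h3 := hstep (a + i) (by omega)
        have h4 := hstep (b + i) (by omega)
        have e1 : j + a + (i + 1) = j + (a + i) + 1 := by ring
        have e2 : j + b + (i + 1) = j + (b + i) + 1 := by ring
        have e3 : j + (a + i) = j + a + i := by ring
        have e4 : j + (b + i) = j + b + i := by ring
        rw [e1, e2, h3, h4, e3, e4, h2]
    have h5 := key (d - b) (by omega)
    have e5 : j + b + (d - b) = j + d := by omega
    have e6 : j + a + (d - b) = j + (a + d - b) := by omega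
    rw [e5, e6] at h5
    apply h1
    rw [← h5]
    exact h0 _ (by omega)
  have hmap : ∀ i ∈ range d, (P.run (j + i)).1 ∈ range P.T := fun i _ =>
    mem_range.2 (run_lt P _)
  have hi : Set.InjOn (fun i => (P.run (j + i)).1) (range d : Set ℕ) := by
    intro a ha b hb he
    have ha' : a < d := mem_range.1 (mem_coe.1 ha)
    have hb' : b < d := mem_range.1 (mem_coe.1 hb)
    rcases lt_trichotomy a b with h | h | h
    · exact absurd he (hinj a b h hb')
    · exact h
    · exact absurd he.symm (hinj b a h ha')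
  have := card_le_card_of_injOn _ hmap hi
  simpa using this

/-- The silent steps lead to the next stopping state. -/
theorem silent {t : ℕ} (ht : accN (P.run t).1 ≠ 0) {j : ℕ} (hj : j ≤ t) : ∃ d, j + d ≤ t ∧
    slc P (P.run j) P.T = P.run (j + d) ∧ P.stop (P.run (j + d)).1 ≠ 0 ∧
    ∀ i < d, P.stop (P.run (j + i)).1 = 0 := by
  have hst : P.stop (P.run t).1 ≠ 0 := by
    unfold Prm.stop
    omega
  have hex : ∃ d, P.stop (P.run (j + d)).1 ≠ 0 := ⟨t - j, by rwa [show j + (t - j) = t by omega]⟩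
  classical
  have hd := Nat.find_spec hex
  have hm : ∀ i < Nat.find hex, P.stop (P.run (j + i)).1 = 0 := fun i hi =>
    not_not.1 (Nat.find_min hex hi)
  have hle : Nat.find hex ≤ t - j := Nat.find_min' hex (by rwa [show j + (t - j) = t by omega])
  generalize Nat.find hex = d at hd hm hle
  obtain ⟨j', h1, h2, h3, h4⟩ := slc_run P j P.T
  have hT := pig P hm hd
  have hjd : j' = d := by
    have h5 : j' ≤ d := by
      by_contra h
      exact hd (h3 d (by omega))
    by_contra h
    have h6 := hm j' (by omega)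
    rcases h4 with h7 | h7
    · omega
    · exact h7 h6
  exact ⟨d, by omega, by rw [h2, hjd], hd, hm⟩

/-- The number of reads before `j`. -/
def rc (j : ℕ) : ℕ := #{i ∈ range j | P.rdg (P.run i).1 ≠ 0}

theorem rc_succ (j : ℕ) : rc P (j + 1) = rc P j + if P.rdg (P.run j).1 ≠ 0 then 1 else 0 := by
  unfold rc
  rw [range_add_one, filter_insert]
  split_ifs with h
  · rw [card_insert_of_notMem (by simp)]
  · rfl

theorem rc_silent {j d : ℕ} (h : ∀ i < d, P.stop (P.run (j + i)).1 = 0) :
    rc P (j + d) = rc P j := by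
  induction d with
  | zero => rfl
  | succ d ih =>
    rw [← add_assoc, rc_succ, ih fun i hi => h i (by omega),
      if_neg (not_not.2 (stop_zero P (h d (by omega))).2), add_zero]

theorem rc_mono {a b : ℕ} (h : a ≤ b) : rc P a ≤ rc P b :=
  card_le_card (filter_subset_filter _ (range_mono h))

theorem stp_acc {j : ℕ} (h : accN (P.run j).1 ≠ 0) : P.run (j + 1) = P.run j := by
  refine Prod.ext ?_ (funext fun x => ?_)
  · show P.nxN (P.run j).1 _ = _
    unfold Prm.nxN
    rw [ifz_n h]
    exact capN_of_lt (run_lt P j)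
  · show ifz (accN (P.run j).1) _ _ = _
    rw [ifz_n h]

theorem claim {t : ℕ} (ht : accN (P.run t).1 ≠ 0) (h0 : ∀ j < t, accN (P.run j).1 = 0) (k : ℕ) :
    ∃ j ≤ t, P.mach.conf k = P.run j ∧ P.stop (P.run j).1 ≠ 0 ∧ (j = t ∨ rc P j = k) := by
  induction k with
  | zero =>
    obtain ⟨d, h1, h2, h3, h4⟩ := silent P ht (Nat.zero_le t)
    refine ⟨0 + d, h1, by rw [conf_zero, h2], h3, Or.inr ?_⟩
    rw [rc_silent P h4]
    rfl
  | succ k ih =>
    obtain ⟨j, h1, h2, h3, h4⟩ := ih
    by_cases hj : j = t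
    · subst hj
      obtain ⟨d, h5, h6, h7, h8⟩ := silent P ht le_rfl
      have hd : d = 0 := by omega
      refine ⟨j, le_rfl, ?_, h3, Or.inl rfl⟩
      rw [conf_succ P h2, stp_acc P ht, h6, hd, add_zero]
    · obtain ⟨d, h5, h6, h7, h8⟩ := silent P ht (j := j + 1) (by omega)
      refine ⟨j + 1 + d, h5, by rw [conf_succ P h2, h6], h7, Or.inr ?_⟩
      have hr : P.rdg (P.run j).1 ≠ 0 := by
        have := h0 j (by omega)
        unfold Prm.stop at h3
        omega
      rw [rc_silent P h8, rc_succ, if_pos hr, h4.resolve_left hj]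

theorem runc : RUNC_stmt where
  snd P k := by
    induction k with
    | zero =>
      obtain ⟨j', -, h, -, -⟩ := slc_run P 0 P.T
      exact ⟨0 + j', by rw [conf_zero, h]⟩
    | succ k ih =>
      obtain ⟨j, hj⟩ := ih
      obtain ⟨j', -, h, -, -⟩ := slc_run P (j + 1) P.T
      exact ⟨j + 1 + j', by rw [conf_succ P hj, h]⟩
  cmp P t ht h0 k hk := by
    obtain ⟨j, h1, h2, h3, h4⟩ := claim P ht h0 k
    rw [h2]
    have e : {j : ℕ | j < t ∧ P.rdg (P.run j).1 ≠ 0} =
        (({i ∈ range t | P.rdg (P.run i).1 ≠ 0} : Finset ℕ) : Set ℕ) := by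
      ext i
      simp
    rw [e, Set.ncard_coe_finset] at hk
    by_cases hj : j = t
    · rw [hj]
      exact ht
    · exfalso
      have hr : P.rdg (P.run j).1 ≠ 0 := by
        have := h0 j (by omega)
        unfold Prm.stop at h3
        omega
      have h5 := rc_mono P (show j + 1 ≤ t by omega)
      rw [rc_succ, if_pos hr, h4.resolve_left hj] at h5
      unfold rc at h5
      omega

end Pool.Agent.Helper14.BR
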